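import Pool.Agent.H93.BL.Targets

/-!
# Bridge between phase coordinates and geometric coordinates (B1)
-/

namespace Pool.Agent.H26.BL.B1
open MeasureTheory Set Pool.Agent.H93.BL

theorem b1 : T_B1 := by
  intro ι P z z'
  have hinn : ∀ z : ι × ℝ × ℝ, P.Phase z → P.inn z.1 (P.pos z) (P.dir z) := by
    intro z hz
    refine ⟨P.pos_mem hz, P.norm_dir z, ?_⟩
    rw [P.ip_dir_n]; exact P.cos_pos_of_phase hz
  refine ⟨hinn z, ?_, ?_⟩
  · intro hz hz' h1 hp hd
    obtain ⟨i, s, φ⟩ := z
    obtain ⟨i', s', φ'⟩ := z'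
    simp only at h1
    subst h1
    have hs : s = s' := by
      simp only [Polygon.pos] at hp
      have h2 : ((s : ℂ) - s') * P.u i = 0 := by linear_combination hp
      rcases mul_eq_zero.1 h2 with h3 | h3
      · have : (s : ℂ) = s' := sub_eq_zero.1 h3
        exact_mod_cast this
      · exact absurd h3 (P.u_ne i)
    have hφ : φ = φ' := by
      have h3 : ip (P.dir (i, s, φ)) (P.u i) = ip (P.dir (i, s', φ')) (P.u i) := by rw [hd]
      have h4 := P.ip_dir_u (i, s, φ)
      have h5 := P.ip_dir_u (i, s', φ')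
      simp only at h4 h5
      rw [h4, h5] at h3
      have h6 := hz.2.2
      have h7 := hz'.2.2
      simp only at h6 h7
      exact Real.injOn_sin ⟨h6.1.le, h6.2.le⟩ ⟨h7.1.le, h7.2.le⟩ (by linarith)
    rw [hs, hφ]
  · constructor
    · rintro ⟨hz, hz', t, ht, hpos, hin, hdir⟩
      refine ⟨hz, hz', hinn z hz, t, ⟨ht, hin, ?_, ?_⟩, hpos, hdir⟩
      · have := P.pos_mem hz'
        rw [hpos] at this; exact this
      · have h1 := P.cos_pos_of_phase hz'
        rw [← P.ip_dir_n z', hdir, P.ip_refl_n] at h1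
        simp only
        linarith
    · rintro ⟨hz, hz', -, t, ⟨ht, hin, -, -⟩, hpos, hdir⟩
      exact ⟨hz, hz', t, ht, hpos, hin, hdir⟩

end Pool.Agent.H26.BL.B1
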