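import Pool.Agent.H93.BL.Targets

/-!
# Bridge between phase coordinates and geometric coordinates (B2)
-/

namespace Pool.Agent.H26.BL.B2
open MeasureTheory Set Pool.Agent.H93.BL

theorem b2 : T_B2 := by
  intro ι P j x v ⟨hx, hv, hn⟩
  obtain ⟨s, hs0, hs1, rfl⟩ := (P.mem_openSegment_iff j x).1 hx
  have hsq : ip v (P.u j) ^ 2 + ip v (P.n j) ^ 2 = 1 := by
    have h := ip_sq_add_cr_sq v (P.u j)
    rw [hv, P.norm_u, P.cr_u] at h
    linear_combination h
  have hlt : |ip v (P.u j)| < 1 := by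
    apply abs_lt_of_sq_lt_sq _ (by norm_num)
    nlinarith [mul_pos hn hn]
  have hlt1 := abs_lt.1 hlt
  refine ⟨s, -Real.arcsin (ip v (P.u j)), ⟨hs0, hs1, ?_, ?_⟩, rfl, ?_⟩
  · simp only
    have := Real.arcsin_lt_pi_div_two.2 hlt1.2
    linarith
  · simp only
    have := Real.neg_pi_div_two_lt_arcsin.2 hlt1.1
    linarith
  · rw [P.dir_eq]
    simp only [Real.cos_neg, Real.sin_neg]
    rw [Real.sin_arcsin hlt1.1.le hlt1.2.le, Real.cos_arcsin]
    have h1 : Real.sqrt (1 - ip v (P.u j) ^ 2) = ip v (P.n j) := by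
      rw [show 1 - ip v (P.u j) ^ 2 = ip v (P.n j) ^ 2 by linarith]
      exact Real.sqrt_sq hn.le
    rw [h1]
    have h := decomp (P.u j) v (P.norm_u j)
    have hnn : Complex.I * P.u j = P.n j := rfl
    rw [hnn, ← P.ip_n j] at h
    conv_rhs => rw [h]
    push_cast; ring

end Pool.Agent.H26.BL.B2
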