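import Pool.Agent.H93.BL.Targets

/-!
# Uniqueness and time reversal in phase coordinates (B3)
-/

namespace Pool.Agent.H26.BL.B3
open MeasureTheory Set Pool.Agent.H93.BL

theorem b3 : T_B1 → T_B2 → T_G6 → T_B3 := by
  intro h1 _ h6 ι P z z' z''
  refine ⟨?_, ?_, ?_⟩
  · intro ha hb
    obtain ⟨hz, hz', ga⟩ := (h1 ι P z z').2.2.1 ha
    obtain ⟨-, hz'', gb⟩ := (h1 ι P z z'').2.2.1 hb
    have := (h6 ι P (z.1, P.pos z, P.dir z) (z'.1, P.pos z', P.dir z')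
      (z''.1, P.pos z'', P.dir z'')).2.2.2.1 ga gb
    simp only [Prod.mk.injEq] at this
    exact (h1 ι P z' z'').2.1 hz' hz'' this.1 this.2.1 this.2.2
  · intro ha hb
    obtain ⟨hz, hz'', ga⟩ := (h1 ι P z z'').2.2.1 ha
    obtain ⟨hz', -, gb⟩ := (h1 ι P z' z'').2.2.1 hb
    have := (h6 ι P (z.1, P.pos z, P.dir z) (z'.1, P.pos z', P.dir z')
      (z''.1, P.pos z'', P.dir z'')).2.2.2.2 ga gb
    simp only [Prod.mk.injEq] at this
    exact (h1 ι P z z').2.1 hz hz' this.1 this.2.1 this.2.2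
  · intro ha
    obtain ⟨hz, hz', ga⟩ := (h1 ι P z z').2.2.1 ha
    have g := (h6 ι P (z.1, P.pos z, P.dir z) (z'.1, P.pos z', P.dir z')
      (z'.1, P.pos z', P.dir z')).1 ga
    obtain ⟨i, s, φ⟩ := z
    obtain ⟨i', s', φ'⟩ := z'
    refine (h1 ι P _ _).2.2.2 ⟨P.phase_rev hz', P.phase_rev hz, ?_⟩
    simp only [Polygon.rev, P.refl_dir, neg_neg] at g
    exact g

end Pool.Agent.H26.BL.B3
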