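import Pool.Agent.H93.BL.Targets

/-!
# From a hit to a step (B4)
-/

namespace Pool.Agent.H26.BL.B4
open MeasureTheory Set Pool.Agent.H93.BL

theorem b4 : T_B1 → T_B2 → T_B4 := by
  intro _ h2 ι P z j t hz ⟨ht, hin, hmem, hip⟩
  have hinn : P.inn j (P.pos z + (t : ℂ) * P.dir z) (P.refl j (P.dir z)) := by
    refine ⟨hmem, ?_, ?_⟩
    · rw [P.norm_refl, P.norm_dir]
    · rw [P.ip_refl_n]; linarith
  obtain ⟨s, φ, hph, hp, hd⟩ := h2 ι P j _ _ hinn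
  exact ⟨(j, s, φ), ⟨hz, hph, t, ht, hp, hin, hd⟩, rfl⟩

end Pool.Agent.H26.BL.B4
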