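import Pool.Agent.H93.BL.Targets

/-!
# Parametrisation of the legs (L1)
-/

namespace Pool.Agent.H26.BL.L1
open MeasureTheory Set Pool.Agent.H93.BL

theorem l1 : T_L1 := by
  intro ι P E C k
  obtain ⟨⟨j, v⟩, hjE, hvC, hrC, hv, hn⟩ := k
  simp only at hjE hvC hrC hv hn
  have hne : ip v (P.n j) ≠ 0 := hn.ne'
  have hcu : cr v (P.u j) = -ip v (P.n j) := P.cr_u j v
  have hcr : ∀ s : ℝ, cr v (P.p j + (s : ℂ) * P.u j) = cr v (P.p j) - s * ip v (P.n j) := by
    intro s
    rw [cr_add_right, cr_smul_right, hcu]; ring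
  have hq : cr v (P.q j) = cr v (P.p j) - P.len j * ip v (P.n j) := by
    conv_lhs => rw [P.q_eq j]
    rw [hcr]
  have h1 : ∀ t : ℝ, cr v (P.p j + (((cr v (P.p j) - t) / ip v (P.n j) : ℝ) : ℂ) * P.u j) = t := by
    intro t
    rw [hcr, div_mul_cancel₀ _ hne]; ring
  refine ⟨h1, ?_, ?_, ?_⟩
  · intro t
    simp only [Polygon.la, Polygon.lb, Polygon.lpt]
    rw [P.mem_openSegment_iff, hq]
    constructor
    · rintro ⟨ha, hb⟩
      refine ⟨(cr v (P.p j) - t) / ip v (P.n j), div_pos (by linarith) hn, ?_, rfl⟩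
      rw [div_lt_iff₀ hn]; linarith
    · rintro ⟨s, h0, h2, hs⟩
      have h3 := h1 t
      rw [hs, hcr] at h3
      constructor
      · nlinarith
      · nlinarith
  · intro x hx
    obtain ⟨s, -, -, rfl⟩ := (P.mem_openSegment_iff j x).1 hx
    simp only [Polygon.lpt]
    rw [hcr, show (cr v (P.p j) - (cr v (P.p j) - s * ip v (P.n j))) / ip v (P.n j) = s by
      field_simp; ring]
  · intro t t'
    simp only [Polygon.lpt]
    rw [dist_eq_norm, show (P.p j + (((cr v (P.p j) - t) / ip v (P.n j) : ℝ) : ℂ) * P.u j) -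
      (P.p j + (((cr v (P.p j) - t') / ip v (P.n j) : ℝ) : ℂ) * P.u j) =
      (((t' - t) / ip v (P.n j) : ℝ) : ℂ) * P.u j by push_cast; ring, norm_mul, P.norm_u,
      Complex.norm_real, mul_one, Real.norm_eq_abs, abs_div, abs_of_pos hn, abs_sub_comm]

end Pool.Agent.H26.BL.L1
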