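import Pool.Agent.H93.BL.Targets

/-!
# An orbit avoiding `E` does not graze (SA)
-/

namespace Pool.Agent.H26.BL.SA
open MeasureTheory Set Pool.Agent.H93.BL

lemma reach (h3 : T_B3) {ι : Type} (P : Polygon ι) (g : ℕ → ι × ℝ × ℝ)
    (hg : ∀ k, P.Step (g k) (g (k + 1))) (z : ι × ℝ × ℝ)
    (hz : Relation.ReflTransGen P.Step (g 0) z) : ∃ k, z = g k := by
  induction hz with
  | refl => exact ⟨0, rfl⟩
  | tail _ hbc ih =>
    obtain ⟨k, rfl⟩ := ih
    exact ⟨k + 1, (h3 ι P _ _ _).1 hbc (hg k)⟩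

theorem sa : T_B3 → T_SA := by
  intro h3 ι P E j hG
  obtain ⟨m0, hm0, hG⟩ := hG
  refine ⟨max m0 (1 / 2), by positivity, max_lt hm0 (by norm_num), ?_⟩
  intro f hf n hn
  have hphase : P.Phase (f n) := (hf n).1.1
  -- forward
  have hF : ∀ z, Relation.ReflTransGen P.Step (f n) z → z.1 ∉ E := by
    intro z hz
    obtain ⟨k, rfl⟩ := reach h3 P (fun k : ℕ => f (n + k))
      (fun k => by
        have := (hf (n + k)).1
        rw [add_assoc] at this
        simpa using this) z (by simpa using hz)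
    exact (hf _).2
  -- backward
  have hR : ∀ z, Relation.ReflTransGen P.Step ((f n).1, (f n).2.1, -(f n).2.2) z → z.1 ∉ E := by
    intro z hz
    obtain ⟨k, rfl⟩ := reach h3 P (fun k : ℕ => ((f (n - k)).1, (f (n - k)).2.1, -(f (n - k)).2.2))
      (fun k => by
        have := (h3 ι P (f (n - (k + 1))) (f (n - k)) (f (n - k))).2.2 (by
          have := (hf (n - (k + 1))).1
          rw [show n - ((k : ℤ) + 1) + 1 = n - k by ring] at this
          exact this)
        push_cast
        exact this) z (by simpa using hz)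
    exact (hf _).2
  have hf1 : f n = (j, (f n).2.1, (f n).2.2) := by
    rw [← hn]
  by_contra hcon
  push Not at hcon
  have hcon2 : m0 < |Real.sin (f n).2.2| := lt_of_le_of_lt (le_max_left _ _) hcon
  have hphase' : P.Phase (j, (f n).2.1, (f n).2.2) := hf1 ▸ hphase
  have hphr : P.Phase (j, (f n).2.1, -(f n).2.2) := P.phase_rev hphase'
  rw [hf1] at hF
  rw [hn] at hR
  rcases hG with hG | hG
  · rcases lt_abs.1 hcon2 with h | h
    · obtain ⟨z, hz, hzE⟩ := hG _ _ hphase' h
      exact hF z hz hzE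
    · obtain ⟨z, hz, hzE⟩ := hG _ _ hphr (by rw [Real.sin_neg]; exact h)
      exact hR z hz hzE
  · rcases lt_abs.1 hcon2 with h | h
    · obtain ⟨z, hz, hzE⟩ := hG _ _ hphr (by rw [Real.sin_neg, neg_neg]; exact h)
      exact hR z hz hzE
    · obtain ⟨z, hz, hzE⟩ := hG _ _ hphase' h
      exact hF z hz hzE

end Pool.Agent.H26.BL.SA
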